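import Pool.Agent.H.MP_034e58.A

namespace Pool.Agent.H.MP_b40933
open Set Filter Topology Cardinal Function

theorem clos {α β B : Type} [Nonempty α] (hB : #B ≤ 𝔠) (ι : B → α) (Good : α → Prop) (v : α → β)
    (Conf : (ℕ → α) → Prop) (Cl : (ℕ → α) → α → Prop)
    (step : ∀ (p : ℕ → α) (S : Set β), #S < 𝔠 → ∃ q, Good q ∧ v q ∉ S ∧ (Conf p → Cl p q)) :
    ∃ F : Set α, (∀ q ∈ F, Good q) ∧ InjOn v F ∧
      ∀ p : ℕ → α, (∀ n, p n ∈ F ∨ p n ∈ range ι) → Conf p → ∃ q ∈ F, Cl p q := by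
  classical
  let J := (𝔠 : Cardinal.{0}).ord.ToType
  have hJ : #J = 𝔠 := by simp [J]
  have hI : ∀ i : J, #(Iio i) < 𝔠 := fun i => (mk_Iio_lt i (by simp [J])).trans_eq hJ
  have hs : #(B ⊕ J) = 𝔠 := by
    rw [mk_sum, lift_id, lift_id, hJ, add_eq_right aleph0_le_continuum hB]
  obtain ⟨e⟩ : Nonempty (J ≃ (ℕ → B ⊕ J) × J) := Cardinal.eq.1 (by
    rw [mk_prod, lift_id, lift_id, ← power_def, hs, hJ]
    simp)
  choose! g hg using step
  let P : J → Set (J × α) → ℕ → α := fun i s n =>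
    Sum.elim ι (fun a => if h : ∃ x, (a, x) ∈ s then h.choose else Classical.arbitrary α) ((e i).1 n)
  obtain ⟨f, hf⟩ := Pool.Agent.H.MP_034e58.trec fun i s => g (P i s) (v '' (Prod.snd '' s))
  have h1 := fun i => hg (P i ((fun j => (j, f j)) '' Iio i))
    (v '' (Prod.snd '' ((fun j => (j, f j)) '' Iio i)))
    (mk_image_le.trans_lt (mk_image_le.trans_lt (mk_image_le.trans_lt (hI i))))
  simp only [← hf] at h1
  refine ⟨range f, ?_, ?_, ?_⟩
  · rintro _ ⟨i, rfl⟩
    exact (h1 i).1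
  · rintro _ ⟨i, rfl⟩ _ ⟨j, rfl⟩ h
    rcases lt_trichotomy i j with c | rfl | c
    · exact absurd ⟨_, ⟨_, ⟨i, c, rfl⟩, rfl⟩, h⟩ (h1 j).2.1
    · rfl
    · exact absurd ⟨_, ⟨_, ⟨j, c, rfl⟩, rfl⟩, h.symm⟩ (h1 i).2.1
  · intro p hp hc
    have : ∀ n, ∃ c : B ⊕ J, Sum.elim ι f c = p n := fun n => by
      rcases hp n with ⟨i, h⟩ | ⟨b, h⟩
      exacts [⟨.inr i, h⟩, ⟨.inl b, h⟩]
    choose σ hσ using this
    let W : ℕ → Set J := fun n => {j | ∃ a, σ n = .inr a ∧ j ≤ a}
    have hW : ∀ n, #(W n) < 𝔠 := fun n => by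
      rcases h : σ n with b | a
      · have : W n = ∅ := by simp [W, h]
        rw [this]
        simpa using continuum_pos
      · have : W n = insert a (Iio a) := by
          ext j
          simp [W, h, le_iff_lt_or_eq, or_comm]
        rw [this]
        exact mk_insert_le.trans_lt (add_lt_of_lt aleph0_le_continuum (hI a)
          (one_lt_aleph0.trans_le aleph0_le_continuum))
    have hU : #(⋃ n, W n) < 𝔠 := by
      refine (mk_iUnion_le W).trans_lt (mul_lt_of_lt aleph0_le_continuum (by simpa using aleph0_lt_continuum) ?_)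
      exact iSup_lt_of_lt_cof_ord (by
        simpa using lt_cof_ord_power le_rfl (by norm_num : (1 : Cardinal.{0}) < 2)) hW
    obtain ⟨j, hj⟩ : ∃ j, e.symm (σ, j) ∉ ⋃ n, W n := by
      by_contra! h
      have := mk_le_of_injective (f := fun j => (⟨e.symm (σ, j), h j⟩ : (⋃ n, W n)))
        (fun a b hab => (Prod.ext_iff.1 (e.symm.injective (Subtype.ext_iff.1 hab))).2)
      rw [hJ] at this
      exact (this.trans_lt hU).false
    set i := e.symm (σ, j) with hi
    have hP : P i ((fun j => (j, f j)) '' Iio i) = p := by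
      funext n
      rw [← hσ n]
      have e1 : (e i).1 = σ := by simp [hi]
      simp only [P, e1]
      rcases h : σ n with b | a
      · rfl
      · have ha : a < i := by
          by_contra hc
          exact hj (mem_iUnion.2 ⟨n, a, h, not_lt.1 hc⟩)
        have hex : ∃ x, (a, x) ∈ (fun j => (j, f j)) '' Iio i := ⟨f a, a, ha, rfl⟩
        simp only [Sum.elim_inr, dif_pos hex]
        obtain ⟨a', -, h2⟩ := hex.choose_spec
        have h3 := (Prod.ext_iff.1 h2).1
        have h4 := (Prod.ext_iff.1 h2).2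
        simp only at h3 h4
        rw [← h4, h3]
    refine ⟨f i, mem_range_self i, ?_⟩
    have := (h1 i).2.2
    rw [hP] at this
    exact this hc

theorem many : 𝔠 ≤ #{u : Ultrafilter ℕ // (u : Filter ℕ) ≤ atTop} := by
  obtain ⟨q, hq⟩ := exists_surjective_nat ℚ
  have : ∀ r : ℝ, ∃ u : Ultrafilter ℕ, (u : Filter ℕ) ≤ atTop ⊓ comap (fun n => (q n : ℝ)) (𝓝 r) := by
    intro r
    have : NeBot (atTop ⊓ comap (fun n => (q n : ℝ)) (𝓝 r)) := by
      rw [inf_neBot_iff]
      intro s hs t ht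
      obtain ⟨V, hV, hVt⟩ := mem_comap.1 ht
      obtain ⟨N, hN⟩ := mem_atTop_sets.1 hs
      have hinf : {a : ℚ | (a : ℝ) ∈ V}.Infinite := by
        obtain ⟨a, b, hab, hsub⟩ := mem_nhds_iff_exists_Ioo_subset.1 hV
        obtain ⟨c, hc1, hc2⟩ := exists_rat_btwn (hab.1.trans hab.2)
        obtain ⟨d, hd1, hd2⟩ := exists_rat_btwn hc2
        refine (Set.Ioo_infinite (show c < d by exact_mod_cast hd1)).mono fun x hx => hsub ⟨?_, ?_⟩
        · exact hc1.trans (by exact_mod_cast hx.1)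
        · exact lt_trans (by exact_mod_cast hx.2) hd2
      obtain ⟨n, hn, hNn⟩ := (hinf.preimage (f := q) (by rw [hq.range_eq]; exact subset_univ _)).exists_gt N
      exact ⟨n, hN n hNn.le, hVt hn⟩
    exact Ultrafilter.exists_le _
  choose u hu using this
  rw [← mk_real]
  refine mk_le_of_injective (f := fun r => ⟨u r, (hu r).trans inf_le_left⟩) fun r s h => ?_
  have h' : u r = u s := Subtype.ext_iff.1 h
  have h1 : Tendsto (fun n => (q n : ℝ)) (u r) (𝓝 r) := tendsto_iff_comap.2 ((hu r).trans inf_le_right)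
  have h2 : Tendsto (fun n => (q n : ℝ)) (u r) (𝓝 s) :=
    tendsto_iff_comap.2 (h' ▸ (hu s).trans inf_le_right)
  exact tendsto_nhds_unique h1 h2

theorem sep {α : Type} (v : ℕ → Ultrafilter α) (hv : Function.Injective v) :
    ∃ (φ : ℕ → ℕ) (B : ℕ → Set α), Function.Injective φ ∧ (∀ n, B n ∈ v (φ n)) ∧
      Pairwise (Disjoint on B) := by
  haveI : Infinite (range v) := (infinite_range_of_injective hv).to_subtype
  obtain ⟨U, hU1, hU2, hU3⟩ := exists_seq_infinite_isOpen_pairwise_disjoint (range v)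
  have : ∀ n, ∃ (k : ℕ) (A : Set α), A ∈ v k ∧ (⟨v k, mem_range_self k⟩ : range v) ∈ U n ∧
      ∀ m, A ∈ v m → (⟨v m, mem_range_self m⟩ : range v) ∈ U n := by
    intro n
    obtain ⟨⟨_, k, rfl⟩, hk⟩ := (hU1 n).nonempty
    obtain ⟨V, hV, hVU⟩ := isOpen_induced_iff.1 (hU2 n)
    have hkV : v k ∈ V := by rw [← hVU] at hk; exact hk
    obtain ⟨_, ⟨A, rfl⟩, hA1, hA2⟩ := ultrafilterBasis_is_basis.exists_subset_of_mem_open hkV hV
    exact ⟨k, A, hA1, hk, fun m hm => by rw [← hVU]; exact hA2 hm⟩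
  choose φ A h1 h2 h3 using this
  have hne : ∀ n m, n ≠ m → A n ∉ v (φ m) := fun n m hnm h =>
    Set.disjoint_left.1 (hU3 hnm) (h3 n _ h) (h2 m)
  refine ⟨φ, fun n => A n ∩ ⋂ m ∈ Finset.range n, (A m)ᶜ, fun n m h => ?_, fun n => ?_, ?_⟩
  · by_contra hc
    exact hne n m hc (h ▸ h1 n)
  · refine inter_mem (h1 n) ((biInter_finset_mem _).2 fun m hm => ?_)
    exact Ultrafilter.compl_mem_iff_notMem.2 (hne m n (Finset.mem_range.1 hm).ne)
  · rw [pairwise_disjoint_on]
    intro n m hnm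
    exact Set.disjoint_left.2 fun x hx hx' =>
      (mem_iInter₂.1 hx'.2 n (Finset.mem_range.2 hnm)) hx.1

end Pool.Agent.H.MP_b40933
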