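import Pool.Agent.H.MP_b40933.A

namespace Pool.Agent.H.MP_b40933
open Set Filter Topology Cardinal Function

abbrev T : Type := ℕ → Bool
abbrev I : Type := T × ℕ

def Ag (m : ℕ) (s t : T) : Prop := ∀ i < m, s i = t i

def GoodS (E : Set I) : Prop := E.Countable ∧ ∀ x ∈ E, ∃ m, ∀ y ∈ E, Ag m y.1 x.1 → y = x

def Good (p : Ultrafilter I) : Prop := ∃ E ∈ p, GoodS E

def NP (p : Ultrafilter I) : Prop := ∀ x, {x} ∉ p

noncomputable def dl (s t : T) : ℕ := sInf {i | s i ≠ t i}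

open Classical in
noncomputable def tt (p : Ultrafilter I) : T := fun i => decide ({x : I | x.1 i = true} ∈ p)

noncomputable def vv (p : Ultrafilter I) : Ultrafilter ℕ := p.map fun x => dl x.1 (tt p)

lemma GoodS.mono {E E' : Set I} (h : GoodS E) (e : E' ⊆ E) : GoodS E' :=
  ⟨h.1.mono e, fun x hx => (h.2 x (e hx)).imp fun _ hm y hy => hm y (e hy)⟩

lemma tt_mem (p : Ultrafilter I) (m : ℕ) : {x : I | Ag m x.1 (tt p)} ∈ p := by
  have : ∀ i, {x : I | x.1 i = tt p i} ∈ p := fun i => by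
    unfold tt
    by_cases h : {x : I | x.1 i = true} ∈ p
    · simpa [h] using h
    · have := Ultrafilter.compl_mem_iff_notMem.2 h
      simp only [h, decide_false]
      refine mem_of_superset this fun x hx => ?_
      simpa using hx
  have h2 := (biInter_finset_mem (Finset.range m) (f := (p : Filter I))).2 fun i _ => this i
  refine mem_of_superset h2 fun x hx i hi => ?_
  exact mem_iInter₂.1 hx i (Finset.mem_range.2 hi)

lemma tt_eq {p : Ultrafilter I} {t : T} (h : ∀ m, {x : I | Ag m x.1 t} ∈ p) : tt p = t := by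
  funext i
  obtain ⟨x, h1, h2⟩ := p.nonempty_of_mem (inter_mem (h (i + 1)) (tt_mem p (i + 1)))
  exact (h2 i i.lt_succ_self).symm.trans (h1 i i.lt_succ_self)

lemma ag_dl {s t : T} : Ag (dl s t) s t := fun _ hi => by
  by_contra h
  exact Nat.notMem_of_lt_sInf hi h

lemma dl_ne {s t : T} (h : s ≠ t) : s (dl s t) ≠ t (dl s t) :=
  Nat.sInf_mem (s := {i | s i ≠ t i}) (Function.ne_iff.1 h)

lemma dl_congr {s s' t : T} (h : s ≠ t) (e : Ag (dl s t + 1) s' s) : s' ≠ t ∧ dl s' t = dl s t := by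
  have h1 : s' (dl s t) ≠ t (dl s t) := by rw [e _ (Nat.lt_succ_self _)]; exact dl_ne h
  have h2 : s' ≠ t := fun c => h1 (by rw [c])
  refine ⟨h2, le_antisymm (Nat.sInf_le h1) ?_⟩
  by_contra hc
  have h3 := dl_ne h2
  rw [e _ (by omega)] at h3
  exact h3 (ag_dl _ (by omega))

def Conf (p : ℕ → Ultrafilter I) : Prop :=
  ∃ (t : T) (φ : ℕ → ℕ) (E : ℕ → Set I) (B : ℕ → Set ℕ), Injective φ ∧ (∀ n, E n ∈ p (φ n)) ∧
    (∀ n, GoodS (E n)) ∧ Pairwise (Disjoint on B) ∧ ∀ n, ∀ x ∈ E n, x.1 ≠ t ∧ dl x.1 t ∈ B n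

def Cl (p : ℕ → Ultrafilter I) (q : Ultrafilter I) : Prop := ∀ E ∈ q, {n | E ∈ p n}.Infinite

lemma step1 {p : ℕ → Ultrafilter I} (h : Conf p) (S : Set (Ultrafilter ℕ)) (hS : #S < 𝔠) :
    ∃ q, (Good q ∧ NP q) ∧ vv q ∉ S ∧ Cl p q := by
  obtain ⟨t, φ, E, B, hφ, hE, hG, hB, hx⟩ := h
  have huniq : ∀ {n k a}, a ∈ B n → a ∈ B k → n = k := fun h1 h2 => by
    by_contra c
    exact Set.disjoint_left.1 (hB c) h1 h2
  obtain ⟨Q, hQ⟩ : ∃ Q : Ultrafilter ℕ → Ultrafilter I, ∀ u A, A ∈ Q u ↔ {n | A ∈ p (φ n)} ∈ u :=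
    ⟨fun u => u.bind fun n => p (φ n), fun u A => Iff.rfl⟩
  have hU : ∀ (u : Ultrafilter ℕ), ∀ U ∈ u, (⋃ n ∈ U, E n) ∈ Q u := fun u U hU =>
    (hQ u _).2 (mem_of_superset hU fun n hn =>
      mem_of_superset (hE n) (subset_biUnion_of_mem (u := E) hn))
  have hinf : ∀ (u : Ultrafilter ℕ), (u : Filter ℕ) ≤ atTop → ∀ U ∈ u, U.Infinite := by
    intro u hu U hU hfin
    rw [← Nat.cofinite_eq_atTop] at hu
    exact Ultrafilter.compl_mem_iff_notMem.1 (hu hfin.compl_mem_cofinite) hU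
  have htt : ∀ (u : Ultrafilter ℕ), (u : Filter ℕ) ≤ atTop → tt (Q u) = t := by
    intro u hu
    apply tt_eq
    intro m
    have hfin : {n | ∃ a < m, a ∈ B n}.Finite := by
      have : {n | ∃ a < m, a ∈ B n} ⊆ ⋃ a ∈ Iio m, {n | a ∈ B n} := fun n ⟨a, h1, h2⟩ =>
        mem_biUnion h1 h2
      refine Set.Finite.subset ((finite_Iio m).biUnion fun a _ => ?_) this
      apply Set.Subsingleton.finite
      intro n hn k hk
      exact huniq (a := a) hn hk
    rw [← Nat.cofinite_eq_atTop] at hu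
    refine mem_of_superset (hU u _ (hu hfin.compl_mem_cofinite)) fun x hx' i hi => ?_
    obtain ⟨n, hn, hxn⟩ := mem_iUnion₂.1 hx'
    apply ag_dl
    by_contra c
    exact hn ⟨_, by omega, (hx n x hxn).2⟩
  have hv : ∀ (u : Ultrafilter ℕ), (u : Filter ℕ) ≤ atTop → ∀ U ∈ u, (⋃ n ∈ U, B n) ∈ vv (Q u) := by
    intro u hu U hU'
    unfold vv
    rw [Ultrafilter.mem_map, htt u hu]
    refine mem_of_superset (hU u U hU') fun x hx' => ?_
    obtain ⟨n, hn, hxn⟩ := mem_iUnion₂.1 hx'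
    exact mem_biUnion hn (hx n x hxn).2
  obtain ⟨⟨u, hu⟩, hS'⟩ : ∃ u : {u : Ultrafilter ℕ // (u : Filter ℕ) ≤ atTop}, vv (Q u.1) ∉ S := by
    by_contra! c
    have := mk_le_of_injective (f := fun u => (⟨vv (Q u.1), c u⟩ : S)) (fun u w huw => by
      have e : vv (Q u.1) = vv (Q w.1) := Subtype.ext_iff.1 huw
      apply Subtype.ext
      apply Ultrafilter.eq_of_le
      intro U hUw
      by_contra hUu
      have h1 := hv u.1 u.2 _ (Ultrafilter.compl_mem_iff_notMem.2 hUu)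
      have h2 := hv w.1 w.2 _ hUw
      rw [← e] at h2
      obtain ⟨a, a1, a2⟩ := (vv (Q u.1)).nonempty_of_mem (inter_mem h1 h2)
      obtain ⟨n, hn, han⟩ := mem_iUnion₂.1 a1
      obtain ⟨k, hk, hak⟩ := mem_iUnion₂.1 a2
      exact hn (huniq han hak ▸ hk))
    exact ((many.trans this).trans_lt hS).false
  refine ⟨Q u, ⟨⟨_, hU u univ univ_mem, ?_, ?_⟩, ?_⟩, hS', ?_⟩
  · exact countable_univ.biUnion fun n _ => (hG n).1
  · intro x hx'
    obtain ⟨n, -, hxn⟩ := mem_iUnion₂.1 hx'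
    obtain ⟨m, hm⟩ := (hG n).2 x hxn
    refine ⟨max m (dl x.1 t + 1), fun y hy hyx => ?_⟩
    obtain ⟨k, -, hyk⟩ := mem_iUnion₂.1 hy
    have h1 := (dl_congr (hx n x hxn).1 (fun i hi => hyx i (by omega))).2
    have h2 : k = n := huniq (hx k y hyk).2 (h1 ▸ (hx n x hxn).2)
    subst h2
    exact hm y hyk fun i hi => hyx i (by omega)
  · intro x hx'
    obtain ⟨n, hn, k, hk, hnk⟩ := (hinf u hu _ ((hQ u _).1 hx')).nontrivial
    obtain ⟨a, a1, a2⟩ := (p (φ n)).nonempty_of_mem (inter_mem hn (hE n))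
    obtain ⟨b, b1, b2⟩ := (p (φ k)).nonempty_of_mem (inter_mem hk (hE k))
    rw [mem_singleton_iff] at a1 b1
    subst a1
    subst b1
    exact hnk (huniq (hx n _ a2).2 (hx k _ b2).2)
  · intro A hA
    exact ((hinf u hu _ ((hQ u _).1 hA)).image hφ.injOn).mono (image_subset_iff.2 fun n hn => hn)

lemma confA {p : ℕ → Ultrafilter I} (hg : ∀ n, Good (p n)) (h : (range fun n => tt (p n)).Infinite) :
    Conf p := by
  obtain ⟨t, ht⟩ := h.exists_accPt_principal
  have h1 : {a | ∃ n, tt (p n) ≠ t ∧ dl (tt (p n)) t = a}.Infinite := by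
    apply Set.infinite_of_forall_exists_gt
    intro m
    have ho : {s : T | Ag (m + 1) s t} ∈ 𝓝 t := by
      have : {s : T | Ag (m + 1) s t} = Set.pi (Iio (m + 1)) fun i => {t i} := by
        ext s; simp [Ag]
      rw [this]
      exact set_pi_mem_nhds (finite_Iio _) fun i _ => (isOpen_discrete _).mem_nhds rfl
    obtain ⟨_, ⟨h2, n, rfl⟩, h3⟩ := accPt_iff_nhds.1 ht _ ho
    have h4 : tt (p n) ≠ t := h3
    refine ⟨_, ⟨n, h4, rfl⟩, ?_⟩
    by_contra c
    exact dl_ne h4 (h2 _ (by omega))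
  let b := h1.natEmbedding
  choose φ hφ1 hφ2 using fun k => (b k).2
  choose E hE1 hE2 using hg
  refine ⟨t, φ, fun k => E (φ k) ∩ {x | Ag ((b k).1 + 1) x.1 (tt (p (φ k)))}, fun k => {(b k).1},
    fun k l e => ?_, fun k => inter_mem (hE1 _) (tt_mem _ _), fun k => (hE2 _).mono inter_subset_left,
    fun k l e => ?_, fun k x hx => ?_⟩
  · apply b.injective
    apply Subtype.ext
    rw [← hφ2, ← hφ2, e]
  · exact disjoint_singleton.2 fun c => e (b.injective (Subtype.ext c))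
  · have := dl_congr (hφ1 k) (s' := x.1) (by rw [hφ2]; exact hx.2)
    exact ⟨this.1, this.2.trans (hφ2 k)⟩

lemma confB {p : ℕ → Ultrafilter I} (hg : ∀ n, Good (p n) ∧ NP (p n)) {t : T} (ht : ∀ n, tt (p n) = t)
    (hv : Injective fun n => vv (p n)) : Conf p := by
  obtain ⟨φ, B, h1, h2, h3⟩ := sep _ hv
  choose E hE1 hE2 using fun n => (hg n).1
  have hne : ∀ n, {x : I | x.1 ≠ t} ∈ p n := fun n => by
    by_contra c
    have c' : {x : I | x.1 = t} ∈ p n := by
      have := Ultrafilter.compl_mem_iff_notMem.2 c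
      simpa [compl_ofPred] using this
    have h4 := inter_mem (hE1 n) c'
    obtain ⟨x, x1, x2⟩ := (p n).nonempty_of_mem h4
    obtain ⟨m, hm⟩ := (hE2 n).2 x x1
    refine (hg n).2 x (mem_of_superset h4 fun y hy => hm y hy.1 fun i _ => ?_)
    rw [show y.1 = t from hy.2, show x.1 = t from x2]
  refine ⟨t, φ, fun k => E (φ k) ∩ ({x | x.1 ≠ t} ∩ {x | dl x.1 t ∈ B k}), B, h1,
    fun k => inter_mem (hE1 _) (inter_mem (hne _) ?_), fun k => (hE2 _).mono inter_subset_left, h3,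
    fun k x hx => hx.2⟩
  have := h2 k
  unfold vv at this
  rw [Ultrafilter.mem_map, ht] at this
  exact this

lemma good_pure (x : I) : Good (pure x) :=
  ⟨{x}, Ultrafilter.mem_pure.2 rfl, countable_singleton x, fun _ hy => ⟨0, fun _ hz _ => hz.trans hy.symm⟩⟩

lemma tt_pure (x : I) : tt (pure x) = x.1 := tt_eq fun _ => Ultrafilter.mem_pure.2 fun _ _ => rfl

lemma confP {x : ℕ → I} (h : (range fun n => (x n).1).Infinite) : Conf fun n => pure (x n) :=
  confA (fun _ => good_pure _) (by simpa only [tt_pure] using h)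

theorem exF : ∃ F : Set (Ultrafilter I), (∀ q ∈ F, Good q ∧ NP q) ∧
    (∀ p : ℕ → Ultrafilter I, (∀ n, p n ∈ F) → ∃ q ∈ F, Cl p q) ∧
    ∀ x : ℕ → I, (range fun n => (x n).1).Infinite → ∃ q ∈ F, Cl (fun n => pure (x n)) q := by
  classical
  have h0 : Conf fun n => pure ((fun i => decide (i = n), 0) : I) := by
    apply confP
    apply infinite_range_of_injective
    intro n m h
    simpa using congrFun h n
  have : Nonempty (Ultrafilter I) := ⟨pure (fun _ => true, 0)⟩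
  obtain ⟨F, h1, h2, h3⟩ := clos (B := I) (by simp) pure (fun q => Good q ∧ NP q) vv Conf Cl (by
    intro p S hS
    by_cases c : Conf p
    · obtain ⟨q, a, b, d⟩ := step1 c S hS
      exact ⟨q, a, b, fun _ => d⟩
    · obtain ⟨q, a, b, -⟩ := step1 h0 S hS
      exact ⟨q, a, b, fun d => absurd d c⟩)
  refine ⟨F, h1, fun p hp => ?_, fun x hx => h3 _ (fun n => .inr ⟨_, rfl⟩) (confP hx)⟩
  by_cases c : (range fun n => tt (p n)).Infinite
  · exact h3 p (fun n => .inl (hp n)) (confA (fun n => (h1 _ (hp n)).1) c)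
  by_cases d : (range p).Finite
  · obtain ⟨q, hq⟩ : ∃ q, {n | p n = q}.Infinite := by
      by_contra! e
      apply Set.infinite_univ (α := ℕ)
      refine (d.biUnion fun q _ => e q).subset fun n _ => ?_
      exact mem_biUnion (mem_range_self n) rfl
    obtain ⟨n, hn⟩ := hq.nonempty
    refine ⟨q, hn ▸ hp n, fun E hE => hq.mono fun k hk => ?_⟩
    show E ∈ p k
    rw [show p k = q from hk]
    exact hE
  · obtain ⟨t, ht⟩ : ∃ t, {q | q ∈ range p ∧ tt q = t}.Infinite := by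
      by_contra! e
      apply d
      refine ((not_infinite.1 c).biUnion fun t _ => e t).subset ?_
      rintro _ ⟨n, rfl⟩
      exact mem_biUnion (mem_range_self n) ⟨mem_range_self n, rfl⟩
    let b := ht.natEmbedding
    choose φ hφ using fun k => (b k).2.1
    have hi : Injective fun k => p (φ k) := fun k l e => by
      apply b.injective
      apply Subtype.ext
      rw [← hφ, ← hφ]
      exact e
    obtain ⟨q, hq, hc⟩ := h3 (fun k => p (φ k)) (fun k => .inl (hp _)) (confB (t := t)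
      (fun k => h1 _ (hp _)) (fun k => by rw [hφ]; exact (b k).2.2)
      (fun k l e => hi (h2 (hp _) (hp _) e)))
    refine ⟨q, hq, fun E hE => ((hc E hE).image (f := φ) fun k _ l _ e => hi ?_).mono
      (image_subset_iff.2 fun n hn => hn)⟩
    show p (φ k) = p (φ l)
    rw [e]

end Pool.Agent.H.MP_b40933
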