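import Pool.Agent.H.MP_b40933.B

namespace Pool.Agent.H.MP_b40933
open Set Filter Topology Function

abbrev C : Type := {E : Set I // E.Countable}
abbrev Om : Type := (C → Bool) × (T → Bool)

open Classical in
noncomputable def pt (p : Ultrafilter I) : Om := (fun E => decide (E.1 ∈ p), fun _ => false)

def sg (x : I) : C := ⟨{x}, countable_singleton x⟩

def KK (w : Om) : Prop := ∀ x, w.1 (sg x) = false

def ZZ (w : Om) : Prop := KK w ∧ {l | w.2 l = false}.Countable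

def YY (F : Set (Ultrafilter I)) : Set Om := {w | (∃ p, (p ∈ F ∨ p ∈ range pure) ∧ w = pt p) ∨ ZZ w}

def XX (F : Set (Ultrafilter I)) : Set (YY F × Bool) :=
  {a | (a.2 = true ∧ KK a.1.1) ∨ (a.2 = false ∧ a.1.1.2 = fun _ => false)}

def WD (X : Type) [TopologicalSpace X] : Prop :=
  ∃ 𝒢 : ℕ → Set (Set X), (∀ n, (∀ G ∈ 𝒢 n, IsOpen G) ∧ ⋃₀ 𝒢 n = univ) ∧
    ∀ (x : X) (s : ℕ → X), (∀ n, ∃ G ∈ 𝒢 n, x ∈ G ∧ s n ∈ G) → ∃ y, MapClusterPt y atTop s

lemma pt_true {p : Ultrafilter I} {E : C} : (pt p).1 E = true ↔ E.1 ∈ p := by simp [pt]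

lemma pt_false {p : Ultrafilter I} {E : C} : (pt p).1 E = false ↔ E.1 ∉ p := by simp [pt]

lemma unc : ¬ (univ : Set T).Countable := by
  rw [countable_univ_iff, not_countable_iff, ← Cardinal.aleph0_lt_mk_iff]
  simpa using Cardinal.aleph0_lt_continuum

lemma notZ {w : Om} (h : w.2 = fun _ => false) : ¬ ZZ w := fun hz => by
  have := hz.2
  rw [h] at this
  exact unc (by simpa using this)

lemma basic {w : Om} {U : Set Om} (hU : U ∈ 𝓝 w) : ∃ (s : Finset C) (a : Finset T), ∀ w' : Om,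
    (∀ E ∈ s, w'.1 E = w.1 E) → (∀ l ∈ a, w'.2 l = w.2 l) → w' ∈ U := by
  obtain ⟨u, hu, v, hv, h⟩ := mem_nhds_prod_iff.1 hU
  rw [nhds_pi] at hu hv
  obtain ⟨s, hs, t, ht, hst⟩ := mem_pi.1 hu
  obtain ⟨a, ha, b, hb, hab⟩ := mem_pi.1 hv
  refine ⟨hs.toFinset, ha.toFinset, fun w' h1 h2 => h ⟨hst fun E hE => ?_, hab fun l hl => ?_⟩⟩
  · rw [h1 E (hs.mem_toFinset.2 hE)]
    exact mem_of_mem_nhds (ht E)
  · rw [h2 l (ha.mem_toFinset.2 hl)]
    exact mem_of_mem_nhds (hb l)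

def Mt (s : Finset C) (q : Ultrafilter I) : Set I := {x | ∀ E ∈ s, (x ∈ E.1 ↔ E.1 ∈ q)}

lemma mt_mem (s : Finset C) (q : Ultrafilter I) : Mt s q ∈ q := by
  have : ∀ E ∈ s, {x | x ∈ E.1 ↔ E.1 ∈ q} ∈ (q : Filter I) := fun E _ => by
    by_cases h : E.1 ∈ q
    · exact mem_of_superset h fun x hx => iff_of_true hx h
    · exact mem_of_superset (Ultrafilter.compl_mem_iff_notMem.2 h) fun x hx => iff_of_false hx h
  exact mem_of_superset ((biInter_finset_mem s).2 this) fun x hx E hE => mem_iInter₂.1 hx E hE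

lemma mt_eq {s : Finset C} {p q : Ultrafilter I} (h : Mt s q ∈ p) : ∀ E ∈ s, (pt p).1 E = (pt q).1 E := by
  intro E hE
  rw [Bool.eq_iff_iff, pt_true, pt_true]
  refine ⟨fun h1 => ?_, fun h1 => mem_of_superset h fun x hx => (hx E hE).2 h1⟩
  obtain ⟨x, x1, x2⟩ := p.nonempty_of_mem (inter_mem h h1)
  exact (x1 E hE).1 x2

lemma clF {p : ℕ → Ultrafilter I} {q : Ultrafilter I} (h : Cl p q) :
    ∀ U ∈ 𝓝 (pt q), {n | pt (p n) ∈ U}.Infinite := fun U hU => by
  obtain ⟨s, a, hs⟩ := basic hU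
  exact (h _ (mt_mem s q)).mono fun n hn => hs _ (mt_eq hn) fun _ _ => rfl

lemma lift {F : Set (Ultrafilter I)} (s : ℕ → XX F) (x : XX F) (φ : ℕ → ℕ)
    (hφ : ∀ A : Set ℕ, A.Infinite → (φ '' A).Infinite) (hb : ∀ n, (s n).1.2 = x.1.2)
    (h : ∀ U ∈ 𝓝 x.1.1.1, {k | (s (φ k)).1.1.1 ∈ U}.Infinite) : MapClusterPt x atTop s := by
  rw [mapClusterPt_iff_frequently]
  intro W hW
  obtain ⟨W1, h1, h2⟩ := mem_nhds_subtype _ _ _ |>.1 hW
  obtain ⟨u, hu, v, hv, h3⟩ := mem_nhds_prod_iff.1 h1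
  obtain ⟨U, hU, h4⟩ := mem_nhds_subtype _ _ _ |>.1 hu
  rw [Nat.frequently_atTop_iff_infinite]
  refine (hφ _ (h U hU)).mono ?_
  rintro _ ⟨k, hk, rfl⟩
  refine h2 (h3 ⟨h4 hk, ?_⟩)
  rw [hb]
  exact mem_of_mem_nhds hv

lemma enum {A : Set ℕ} (hA : A.Infinite) : ∃ φ : ℕ → ℕ, Injective φ ∧ ∀ k, φ k ∈ A :=
  ⟨fun k => (hA.natEmbedding A k).1, Subtype.val_injective.comp (hA.natEmbedding A).injective,
    fun k => (hA.natEmbedding A k).2⟩

variable {F : Set (Ultrafilter I)} (h1 : ∀ q ∈ F, Good q ∧ NP q)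
  (h2 : ∀ p : ℕ → Ultrafilter I, (∀ n, p n ∈ F) → ∃ q ∈ F, Cl p q)
  (h3 : ∀ x : ℕ → I, (range fun n => (x n).1).Infinite → ∃ q ∈ F, Cl (fun n => pure (x n)) q)

include h1 h2 in
lemma caseF (s : ℕ → XX F) (b : Bool) (hb : ∀ n, (s n).1.2 = b)
    (h : {n | ∃ p ∈ F, (s n).1.1.1 = pt p}.Infinite) : ∃ y, MapClusterPt y atTop s := by
  obtain ⟨φ, hφ, hA⟩ := enum h
  choose p hp1 hp2 using hA
  obtain ⟨q, hq, hc⟩ := h2 p hp1
  refine ⟨⟨(⟨pt q, .inl ⟨q, .inl hq, rfl⟩⟩, b), ?_⟩, lift s _ φ (fun A hA => hA.image hφ.injOn) hb ?_⟩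
  · cases b
    · exact .inr ⟨rfl, rfl⟩
    · exact .inl ⟨rfl, fun x => pt_false.2 ((h1 q hq).2 x)⟩
  · simp only [hp2]
    exact clF hc

lemma caseZ (s : ℕ → XX F) (hb : ∀ n, (s n).1.2 = true)
    (h : {n | ZZ (s n).1.1.1}.Infinite) : ∃ y, MapClusterPt y atTop s := by
  obtain ⟨φ, hφ, hA⟩ := enum h
  obtain ⟨w, -, hw⟩ := isCompact_univ.exists_mapClusterPt (f := atTop)
    (u := fun k => (s (φ k)).1.1.1) (by simp)
  have hK : KK w := fun x => by
    refine IsClosed.mem_of_mapClusterPt (s := {w : Om | w.1 (sg x) = false})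
      (isClosed_eq (by fun_prop) continuous_const) hw (Eventually.of_forall fun k => (hA k).1 x)
  have hZ : ZZ w := by
    refine ⟨hK, (countable_iUnion fun k => (hA k).2).mono fun l hl => ?_⟩
    by_contra c
    have := IsClosed.mem_of_mapClusterPt (s := {w : Om | w.2 l = true})
      (isClosed_eq (by fun_prop) continuous_const) hw (Eventually.of_forall fun k => by
        have : ¬ (s (φ k)).1.1.1.2 l = false := fun e => c (mem_iUnion.2 ⟨k, e⟩)
        simpa using this)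
    have h1 : w.2 l = true := this
    have h2 : w.2 l = false := hl
    simp [h1] at h2
  refine ⟨⟨(⟨w, .inr hZ⟩, true), .inl ⟨rfl, hK⟩⟩, lift s _ φ (fun A hA => hA.image hφ.injOn) hb ?_⟩
  intro U hU
  exact Nat.frequently_atTop_iff_infinite.1 (mapClusterPt_iff_frequently.1 hw U hU)

lemma rep {a : XX F} (h : a.1.2 = false) : ∃ p, (p ∈ F ∨ p ∈ range pure) ∧ a.1.1.1 = pt p := by
  rcases a.2 with c | c
  · rw [h] at c
    exact absurd c.1 (by simp)
  · exact a.1.1.2.resolve_right (notZ c.2)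

include h1 h2 h3 in
theorem wdX : WD (XX F) := by
  refine ⟨fun n => insert {a | a.1.2 = true} {G | ∃ E : C, GoodS E.1 ∧
    (∀ x ∈ E.1, ∀ y ∈ E.1, Ag n x.1 y.1) ∧ G = {a | a.1.2 = false ∧ a.1.1.1.1 E = true}},
    fun n => ⟨?_, ?_⟩, ?_⟩
  · rintro G (rfl | ⟨E, -, -, rfl⟩)
    · exact (isOpen_discrete {true}).preimage (f := fun a : XX F => a.1.2) (by fun_prop)
    · exact ((isOpen_discrete {false}).preimage (f := fun a : XX F => a.1.2) (by fun_prop)).inter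
        ((isOpen_discrete {true}).preimage (f := fun a : XX F => a.1.1.1.1 E) (by fun_prop))
  · refine eq_univ_of_forall fun a => ?_
    cases hb : a.1.2
    · obtain ⟨p, hp, e⟩ := rep hb
      have hg : Good p := by
        rcases hp with hp | ⟨x, rfl⟩
        exacts [(h1 p hp).1, good_pure x]
      obtain ⟨E, hE, hG⟩ := hg
      refine ⟨_, .inr ⟨⟨E ∩ {x | Ag n x.1 (tt p)}, hG.1.mono inter_subset_left⟩,
        hG.mono inter_subset_left, fun x hx y hy i hi => (hx.2 i hi).trans (hy.2 i hi).symm, rfl⟩,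
        hb, ?_⟩
      rw [e]
      exact pt_true.2 (inter_mem hE (tt_mem p n))
    · exact ⟨_, .inl rfl, hb⟩
  intro x s hs
  cases hb : x.1.2
  · have : ∀ n, ∃ E : C, GoodS E.1 ∧ (∀ x ∈ E.1, ∀ y ∈ E.1, Ag n x.1 y.1) ∧
        x.1.1.1.1 E = true ∧ (s n).1.2 = false ∧ (s n).1.1.1.1 E = true := fun n => by
      obtain ⟨G, rfl | ⟨E, a, b, rfl⟩, c, d⟩ := hs n
      · exact absurd (hb.symm.trans c) (by simp)
      · exact ⟨E, a, b, c.2, d⟩
    choose E hG hA hx hsb hsE using this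
    obtain ⟨p, -, hp⟩ := rep hb
    by_cases c : {n | ∃ p ∈ F, (s n).1.1.1 = pt p}.Infinite
    · exact caseF h1 h2 s false hsb c
    obtain ⟨φ, hφ, hφ'⟩ := enum (Set.Finite.infinite_compl (not_infinite.1 c))
    have : ∀ k, ∃ y : I, (s (φ k)).1.1.1 = pt (pure y) := fun k => by
      obtain ⟨q, hq | ⟨y, rfl⟩, e⟩ := rep (hsb (φ k))
      · exact absurd ⟨q, hq, e⟩ (hφ' k)
      · exact ⟨y, e⟩
    choose y hy using this
    have hyE : ∀ k, y k ∈ (E (φ k)).1 := fun k => by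
      have := hsE (φ k)
      rw [hy] at this
      exact pt_true.1 this
    have hpE : ∀ n, (E n).1 ∈ p := fun n => pt_true.1 (hp ▸ hx n)
    by_cases d : (range fun k => (y k).1).Infinite
    · obtain ⟨q, hq, hc⟩ := h3 y d
      refine ⟨⟨(⟨pt q, .inl ⟨q, .inl hq, rfl⟩⟩, false), .inr ⟨rfl, rfl⟩⟩,
        lift s _ φ (fun A hA => hA.image hφ.injOn) hsb ?_⟩
      simp only [hy]
      exact clF hc
    obtain ⟨t, ht⟩ : ∃ t, {k | (y k).1 = t}.Infinite := by
      by_contra! e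
      apply Set.infinite_univ (α := ℕ)
      refine ((not_infinite.1 d).biUnion fun t _ => e t).subset fun n _ => ?_
      exact mem_biUnion (mem_range_self n) rfl
    have hm : ∀ m, {z : I | Ag m z.1 t} ∈ p := fun m => by
      obtain ⟨_, ⟨k, hk, rfl⟩, hmk⟩ := (ht.image hφ.injOn).exists_gt m
      refine mem_of_superset (hpE (φ k)) fun z hz i hi => ?_
      rw [← show (y k).1 = t from hk]
      exact hA _ z hz _ (hyE k) i (by omega)
    refine ⟨x, lift s x φ (fun A hA => hA.image hφ.injOn) (fun n => (hsb n).trans hb.symm)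
      fun U hU => ht.mono fun k hk => ?_⟩
    obtain ⟨m, hm'⟩ := (hG (φ k)).2 _ (hyE k)
    have : p = pure (y k) := by
      apply Ultrafilter.eq_of_le
      refine Filter.le_pure_iff.2 (mem_of_superset (inter_mem (hpE (φ k)) (hm m)) fun z hz => ?_)
      refine hm' z hz.1 ?_
      rw [show (y k).1 = t from hk]
      exact hz.2
    show (s (φ k)).1.1.1 ∈ U
    rw [hy, ← this, ← hp]
    exact mem_of_mem_nhds hU
  · have hsb : ∀ n, (s n).1.2 = true := fun n => by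
      obtain ⟨G, rfl | ⟨E, a, b, rfl⟩, c, d⟩ := hs n
      · exact d
      · exact absurd (hb.symm.trans c.1) (by simp)
    by_cases c : {n | ∃ p ∈ F, (s n).1.1.1 = pt p}.Infinite
    · exact caseF h1 h2 s true hsb c
    refine caseZ s hsb ((Set.Finite.infinite_compl (not_infinite.1 c)).mono fun n hn => ?_)
    rcases (s n).1.1.2 with ⟨q, hq | ⟨y, rfl⟩, e⟩ | e
    · exact absurd ⟨q, hq, e⟩ hn
    · exfalso
      rcases (s n).2 with a | a
      · have := a.2 y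
        rw [e] at this
        exact pt_false.1 this (Ultrafilter.mem_pure.2 rfl)
      · exact absurd ((hsb n).symm.trans a.1) (by simp)
    · exact e

end Pool.Agent.H.MP_b40933
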