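import Pool.Agent.H.MP_b40933.C

namespace Pool.Agent.H.MP_b40933
open Set Filter Topology Function

variable {F : Set (Ultrafilter I)} (h1 : ∀ q ∈ F, Good q ∧ NP q)
  (h3 : ∀ x : ℕ → I, (range fun n => (x n).1).Infinite → ∃ q ∈ F, Cl (fun n => pure (x n)) q)

include h3 in
lemma free (s : Ultrafilter I → Finset C) : ∃ (T' : Set T) (C' : Set C), T'.Finite ∧ C'.Finite ∧
    ∀ x : I, x.1 ∉ T' → ∀ σ : Finset C, (∀ E ∈ σ, E ∉ C') →
      ∃ q ∈ F, x ∈ Mt (s q) q ∧ Disjoint (s q) σ := by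
  by_contra! h
  obtain ⟨f, hf⟩ := Pool.Agent.H.MP_034e58.seq (α := I × Finset C)
    (fun _ y => ∀ q ∈ F, y.1 ∈ Mt (s q) q → ¬ Disjoint (s q) y.2)
    (fun x y => x.1.1 ≠ y.1.1 ∧ Disjoint x.2 y.2) (fun _ S hS => by
      obtain ⟨x, a, σ, b, c⟩ := h ((fun y => y.1.1) '' S) (⋃ y ∈ S, (y.2 : Set C)) (hS.image _)
        (hS.biUnion fun y _ => y.2.finite_toSet)
      exact ⟨(x, σ), c, fun y hy => ⟨fun e => a ⟨y, hy, e⟩,
        Finset.disjoint_left.2 fun E e1 e2 => b E e2 (mem_biUnion hy e1)⟩⟩)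
  obtain ⟨q, hq, hc⟩ := h3 (fun n => (f n).1) (infinite_range_of_injective
    (Function.Injective.of_lt_imp_ne fun i j h => ((hf j).2 i h).1))
  have hA := hc _ (mt_mem (s q) q)
  have : ∀ n : {n | Mt (s q) q ∈ (pure (f n).1 : Ultrafilter I)}, ∃ E ∈ s q, E ∈ (f n).2 := fun n =>
    Finset.not_disjoint_iff.1 ((hf n).1 q hq n.2)
  choose g g1 g2 using this
  have := hA.to_subtype
  refine not_injective_infinite_finite (fun n => (⟨g n, g1 n⟩ : s q)) fun n m e => ?_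
  have e' : g n = g m := Subtype.ext_iff.1 e
  apply Subtype.ext
  rcases lt_trichotomy n.1 m.1 with c | c | c
  · exact absurd (e' ▸ g2 n) (Finset.disjoint_right.1 ((hf m).2 n c).2 (g2 m))
  · exact c
  · exact absurd (e' ▸ g2 n) (Finset.disjoint_left.1 ((hf n).2 m c).2 (g2 m))

include h1 h3 in
theorem notwd : ¬ WD (YY F) := by
  classical
  rintro ⟨𝒢, hG, hW⟩
  have : ∀ n q, q ∈ F → ∃ G ∈ 𝒢 n, ∃ (s : Finset C) (a : Finset T), ∀ w : YY F,
      (∀ E ∈ s, w.1.1 E = (pt q).1 E) → (∀ l ∈ a, w.1.2 l = false) → w ∈ G := by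
    intro n q hq
    obtain ⟨G, hG1, hG2⟩ := eq_univ_iff_forall.1 (hG n).2 ⟨pt q, .inl ⟨q, .inl hq, rfl⟩⟩
    obtain ⟨U, hU, hUG⟩ := (mem_nhds_subtype _ _ _).1 (((hG n).1 G hG1).mem_nhds hG2)
    obtain ⟨s, a, h⟩ := basic hU
    exact ⟨G, hG1, s, a, fun w b c => hUG (h _ b c)⟩
  choose! G hG1 s a hs using this
  choose T' C' hT hC hfree using fun n => free h3 (s n)
  have hC0 : (⋃ n, C' n).Countable := countable_iUnion fun n => (hC n).countable
  obtain ⟨t, ht⟩ : ∃ t, t ∉ (⋃ n, T' n) ∪ ⋃ E ∈ (⋃ n, C' n), Prod.fst '' E.1 := by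
    by_contra! c
    apply unc
    rw [← eq_univ_of_forall c]
    exact (countable_iUnion fun n => (hT n).countable).union (hC0.biUnion fun E _ => E.2.image _)
  obtain ⟨f, hf⟩ := Pool.Agent.H.MP_034e58.seq (α := Finset C × Ultrafilter I)
    (fun n y => y.2 ∈ F ∧ y.1 = s n y.2 ∧ (t, n) ∈ Mt y.1 y.2)
    (fun x y => ∀ E ∈ x.1, E ∉ (⋃ n, C' n) → E ∉ y.1) (fun n S hS => by
      obtain ⟨q, b, c, d⟩ := hfree n (t, n) (fun e => ht (.inl (mem_iUnion.2 ⟨n, e⟩)))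
        ((hS.toFinset.biUnion fun y => y.1).filter (· ∉ ⋃ n, C' n))
        (fun E hE e => (Finset.mem_filter.1 hE).2 (mem_iUnion.2 ⟨n, e⟩))
      exact ⟨(s n q, q), ⟨b, rfl, c⟩, fun y hy E e1 e2 => Finset.disjoint_right.1 d
        (Finset.mem_filter.2 ⟨Finset.mem_biUnion.2 ⟨y, hS.mem_toFinset.2 hy, e1⟩, e2⟩)⟩)
  let w : Om := (fun E => decide (∃ n, E ∈ (f n).1 ∧ E.1 ∈ (f n).2),
    fun l => decide (∀ n, l ∉ a n (f n).2))
  have hw : ZZ w := by
    refine ⟨fun x => ?_, (countable_iUnion fun n => (a n (f n).2).countable_toSet).mono fun l hl => ?_⟩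
    · refine decide_eq_false ?_
      rintro ⟨n, -, c⟩
      exact (h1 _ (hf n).1.1).2 x c
    · simpa [w] using hl
  obtain ⟨y, hy⟩ := hW ⟨w, .inr hw⟩ (fun n => ⟨pt (pure (t, n)), .inl ⟨_, .inr ⟨_, rfl⟩, rfl⟩⟩) (by
    intro n
    obtain ⟨⟨a1, a2, a3⟩, -⟩ := hf n
    refine ⟨G n (f n).2, hG1 n _ a1, hs n _ a1 _ (fun E hE => ?_) (fun l hl => ?_),
      hs n _ a1 _ (mt_eq (a2 ▸ a3)) fun _ _ => rfl⟩
    · rw [← a2] at hE
      rw [Bool.eq_iff_iff, pt_true]
      simp only [w, decide_eq_true_eq]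
      refine ⟨?_, fun c => ⟨n, hE, c⟩⟩
      rintro ⟨m, b1, b2⟩
      by_cases c : E ∈ ⋃ n, C' n
      · exact absurd (.inr (mem_biUnion c ⟨(t, m), ((hf m).1.2.2 E b1).2 b2, rfl⟩)) ht
      · rcases lt_trichotomy m n with d | rfl | d
        · exact absurd hE ((hf n).2 m d E b1 c)
        · exact b2
        · exact absurd b1 ((hf m).2 n d E hE c)
    · exact decide_eq_false fun c => c n hl)
  have hy2 : y.1.2 = fun _ => false :=
    IsClosed.mem_of_mapClusterPt (s := {w : YY F | w.1.2 = fun _ => false})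
      (isClosed_eq (by fun_prop) continuous_const) hy (Eventually.of_forall fun k => rfl)
  obtain ⟨p, hp, e⟩ := y.2.resolve_right (notZ hy2)
  have hg : Good p := by
    rcases hp with hp | ⟨x, rfl⟩
    exacts [(h1 p hp).1, good_pure x]
  obtain ⟨E, hE, hEG⟩ := hg
  have := mapClusterPt_iff_frequently.1 hy {w : YY F | w.1.1 ⟨E, hEG.1⟩ = true}
    (((isOpen_discrete {true}).preimage (f := fun w : YY F => w.1.1 ⟨E, hEG.1⟩) (by fun_prop)).mem_nhds
      (by show y.1.1 _ = true; rw [e]; exact pt_true.2 hE))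
  obtain ⟨n, hn, m, hm, hnm⟩ := (Nat.frequently_atTop_iff_infinite.1 this).nontrivial
  have b1 : (t, n) ∈ E := pt_true.1 hn
  have b2 : (t, m) ∈ E := pt_true.1 hm
  obtain ⟨k, hk⟩ := hEG.2 _ b1
  exact hnm (Prod.ext_iff.1 (hk _ b2 fun _ _ => rfl)).2.symm

include h1 in
theorem surj : Surjective fun a : XX F => a.1.1 := fun y => by
  rcases y.2 with ⟨p, -, e⟩ | e
  · exact ⟨⟨(y, false), .inr ⟨rfl, by rw [e]; rfl⟩⟩, rfl⟩
  · exact ⟨⟨(y, true), .inl ⟨rfl, e.1⟩⟩, rfl⟩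

theorem closedX : IsClosed (XX F) := by
  refine IsClosed.union (IsClosed.inter (isClosed_eq continuous_snd continuous_const) ?_)
    (IsClosed.inter (isClosed_eq continuous_snd continuous_const)
      (isClosed_eq (by fun_prop) continuous_const))
  have : IsClosed (⋂ x, {a : YY F × Bool | a.1.1.1 (sg x) = false}) :=
    isClosed_iInter fun x => isClosed_eq (by fun_prop) continuous_const
  convert this using 1
  ext a
  simp only [mem_iInter]
  rfl

theorem main : ∃ (X Y : Type) (_ : TopologicalSpace X) (_ : TopologicalSpace Y) (f : X → Y),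
    T35Space X ∧ T35Space Y ∧ WD X ∧ Continuous f ∧ IsClosedMap f ∧ Surjective f ∧
      (∀ y, IsCompact (f ⁻¹' {y})) ∧ ¬ WD Y := by
  obtain ⟨F, h1, h2, h3⟩ := exF
  refine ⟨XX F, YY F, inferInstance, inferInstance, fun a => a.1.1, inferInstance, inferInstance,
    wdX h1 h2 h3, by fun_prop, isClosedMap_fst_of_compactSpace.comp closedX.isClosedMap_subtype_val,
    surj h1, fun y => Set.Finite.isCompact ?_, notwd h1 h3⟩
  refine Set.Finite.of_finite_image (f := fun a : XX F => a.1.2) (toFinite _) fun a ha b hb e => ?_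
  exact Subtype.ext (Prod.ext (ha.trans hb.symm) e)

end Pool.Agent.H.MP_b40933
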